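import Pool.Agent.Helper84.T5g.Defs
import Pool.Agent.Helper75.T5.Dec
import Pool.Agent.Helper75.T4.Inj
import Pool.Agent.Helper30.T5g.Size
import Pool.Agent.Helper30.T5g.Front

/-!
# T5g (MP_12a1af), block CNTb: decoding of one element, number of elements of a state
-/

set_option autoImplicit false

namespace Pool.Agent.Helper50.T5g

open Finset Pool.Agent.Helper27.T4 Pool.Agent.Helper27.T5b Pool.Agent.Helper37.T5g
open Pool.Agent.Helper5.ET (pr own pre mask rk ordK)
open Pool.Agent.Helper22.HW Pool.Agent.Helper57.T5 Pool.Agent.Helper39.T5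
open Pool.Agent.Helper84.T5g
open Pool.Agent.Helper30.T5g (pz QF QT RT BP ez NL)

/-! ## decoding with trivial families -/

section general

variable {ι : Type*} [Fintype ι] [DecidableEq ι] {p : ι → ℕ}

/-- number of tuples with a given code; families with `a i = 0` have the value `1` -/
theorem card_code_le_triv (hp : ∀ i, (p i).Prime) (hp2 : ∀ i, p i ≠ 2) (a : ι → ℕ) (rk : ι → ℕ)
    (ρ : ∀ i, (ι → ℕ) → ZMod (p i ^ a i))
    (hρ : ∀ i x y, (∀ j, rk j < rk i → x j = y j) → ρ i x = ρ i y)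
    (c : ∀ i, ZMod (p i ^ a i)) (S : Finset (ι → ℕ))
    (hS : ∀ x ∈ S, ∀ i, (a i = 0 ∧ x i = 1) ∨ ((x i).Coprime (p i) ∧ (x i) ^ 2 < p i ^ a i ∧
      Lg (p i) (a i) (x i) + ρ i x = c i)) :
    S.card ≤ ∏ i, (p i - 1) := by
  classical
  refine Pool.Agent.Helper3.T4.card_le_prod_of_rank rk (fun i => p i - 1) S ?_
  intro f g hg
  by_cases ha : a f = 0
  · refine (card_le_card (t := {1}) ?_).trans ?_
    · intro x hx
      rw [Finset.mem_image] at hx
      obtain ⟨g', hg', rfl⟩ := hx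
      rw [Finset.mem_filter] at hg'
      rw [mem_singleton]
      rcases hS g' hg'.1 f with h1 | h1
      · exact h1.2
      · exfalso
        obtain ⟨h2, h3, -⟩ := h1
        rw [ha, pow_zero] at h3
        have h4 : g' f = 0 := by
          by_contra hc
          have : 1 ≤ g' f ^ 2 := Nat.one_le_iff_ne_zero.2 (pow_ne_zero 2 hc)
          omega
        rw [h4, Nat.coprime_zero_left] at h2
        exact (hp f).one_lt.ne' h2
    · rw [card_singleton]
      have := (hp f).one_lt
      omega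
  · have h := Pool.Agent.Helper3.T4.card_single_le (hp f) (hp2 f) (a f) (a f) (c f - ρ f g)
      ((S.filter (fun g' => ∀ i, rk i < rk f → g' i = g i)).image (fun g' => g' f)) ?_
    · have h0 : (a f - 2 * a f) / 2 = 0 := by omega
      rw [h0, pow_zero, mul_one] at h
      exact h
    · intro x hx
      rw [Finset.mem_image] at hx
      obtain ⟨g', hg', rfl⟩ := hx
      rw [Finset.mem_filter] at hg'
      obtain ⟨h1, h2, h3⟩ := (hS g' hg'.1 f).resolve_left (fun h => ha h.1)
      refine ⟨h1, h2, ?_⟩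
      rw [← h3, hρ f g' g hg'.2]
      ring

end general

variable {m : Sq} {k l : ℕ}

/-! ## the joint level -/

theorem pJ_ne_two (k s : ℕ) (i : JF) : pJ k s i ≠ 2 := by
  rcases i with f | i
  · exact Pool.Agent.Helper5.ET.pr_ne_two f
  · refine Fin.cases ?_ (fun f => ?_) i
    · show (1000039 : ℕ) ≠ 2
      norm_num
    · show pz k (s + 1) f ≠ 2
      have := Pool.Agent.Helper30.T5g.million_lt_pz k (s + 1) f
      intro h
      rw [h] at this
      norm_num at this

theorem pJ_le (k s : ℕ) (i : JF) : pJ k s i ≤ BP k + 1000039 := by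
  rcases i with f | i
  · have := Pool.Agent.Helper50.ET.pr_le f
    show pr f ≤ _
    omega
  · refine Fin.cases ?_ (fun f => ?_) i
    · show (1000039 : ℕ) ≤ _
      omega
    · show pz k (s + 1) f ≤ _
      have := Pool.Agent.Helper30.T5g.pz_le k (s + 1) f
      omega

theorem aJ_mono (m : Sq) (k s : ℕ) {l' l : ℕ} (h : l' ≤ l) : aJ m k s l' ≤ aJ m k s l := by
  intro i
  rcases i with f | i
  · exact ct_mono _ h
  · refine Fin.cases ?_ (fun f => ?_) i
    · exact ct_mono _ h
    · exact ct_mono _ h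

theorem Jn_pos (m : Sq) (k s l : ℕ) : 0 < Jn m k s l := NN_pos (pJ_prime k s) _

theorem Jn_dvd (m : Sq) (k s : ℕ) {l' l : ℕ} (h : l' ≤ l) : Jn m k s l' ∣ Jn m k s l :=
  NN_dvd (pJ k s) (aJ_mono m k s h)

theorem le_ef (hm : m.Ok) (k l t : ℕ) : l ≤ ef m k l t :=
  (Pool.Agent.Helper30.T5g.lt_ez hm _ l).le

/-- the joint code modulo the digits below `j' ≤ ef m k l 0`, component by component -/
theorem c0_cast (m : Sq) (k l : ℕ) (w : Key → ℕ) (x : JF → ℕ) (i : JF)
    (hx : (x i).Coprime (pJ k (sL m k l) i)) {j' : ℕ} (hj : j' ≤ ef m k l 0) :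
    ((c0 m k l w x : ℕ) : ZMod (pJ k (sL m k l) i ^ aJ m k (sL m k l) j' i)) =
      Lg (pJ k (sL m k l) i) (aJ m k (sL m k l) j' i) (x i) +
        ((w (Key.J l i (maskJ (preJ m k l i) x)) : ℕ) :
          ZMod (pJ k (sL m k l) i ^ aJ m k (sL m k l) j' i)) := by
  have hle : aJ m k (sL m k l) j' i ≤ aJ m k (sL m k l) (ef m k l 0) i := aJ_mono m k _ hj i
  have h : ((c0 m k l w x : ℕ) :
      ZMod (pJ k (sL m k l) i ^ aJ m k (sL m k l) (ef m k l 0) i)) =
      Lg (pJ k (sL m k l) i) (aJ m k (sL m k l) (ef m k l 0) i) (x i) +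
        ((w (Key.J l i (maskJ (preJ m k l i) x)) : ℕ) :
          ZMod (pJ k (sL m k l) i ^ aJ m k (sL m k l) (ef m k l 0) i)) :=
    cv_cast_comp (pJ_prime k _) (pJ_inj k _) (aJ m k (sL m k l) (ef m k l 0))
      (cmp0 m k l w x) i
  have h1 := congrArg (ZMod.castHom (pow_dvd_pow (pJ k (sL m k l) i) hle)
    (ZMod (pJ k (sL m k l) i ^ aJ m k (sL m k l) j' i))) h
  rw [map_natCast, map_add, map_natCast,
    Lg_red (pJ_prime k _ i) (pJ_ne_two k _ i) _ _ _ hx hle] at h1
  exact h1

/-- the rank of a joint family -/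
def rkJ (y : ℕ) : JF → ℕ := Sum.elim (fun f => rk (ordK y) f) (fun _ => 0)

theorem maskJ_congr (m : Sq) (k l : ℕ) (i : JF) (x y : JF → ℕ)
    (h : ∀ j, rkJ (mL m k l) j < rkJ (mL m k l) i → x j = y j) :
    maskJ (preJ m k l i) x = maskJ (preJ m k l i) y := by
  funext j
  unfold maskJ
  by_cases hj : j ∈ preJ m k l i
  · rw [if_pos hj, if_pos hj]
    apply h
    rcases i with f | i
    · unfold preJ at hj
      rw [mem_image] at hj
      obtain ⟨g, hg, rfl⟩ := hj
      unfold pre at hg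
      split_ifs at hg with h1
      · exact absurd hg (Finset.notMem_empty _)
      · exact (Finset.mem_filter.1 hg).2
    · unfold preJ at hj
      exact absurd hj (Finset.notMem_empty _)
  · rw [if_neg hj, if_neg hj]

theorem mem_XJ {x : JF → ℕ} (hx : x ∈ XJ m k l) (i : JF) :
    (aJ m k (sL m k l) l i = 0 ∧ x i = 1) ∨ ((x i).Prime ∧
      (x i).Coprime (pJ k (sL m k l) i) ∧
      (x i) ^ 2 < pJ k (sL m k l) i ^ aJ m k (sL m k l) l i) := by
  unfold XJ at hx
  rw [Fintype.mem_piFinset] at hx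
  have h := hx i
  split_ifs at h with h1
  · left
    exact ⟨h1, mem_singleton.1 h⟩
  · right
    exact mem_T1.1 h

/-- decoding of the joint level -/
theorem joint_dec (hm : m.Ok) (k l : ℕ) (w : Key → ℕ) (T : ℕ) :
    ((XJ m k l).filter (fun x => c0 m k l w x ≡ T [MOD Jn m k (sL m k l) l])).card ≤
      (BP k + 1000039) ^ 7 := by
  have key := card_code_le_triv (p := pJ k (sL m k l)) (pJ_prime k _) (pJ_ne_two k _)
    (aJ m k (sL m k l) l) (rkJ (mL m k l))
    (fun i x => ((w (Key.J l i (maskJ (preJ m k l i) x)) : ℕ) :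
      ZMod (pJ k (sL m k l) i ^ aJ m k (sL m k l) l i)))
    (fun i x y h => by rw [maskJ_congr m k l i x y h])
    (fun i => ((T : ℕ) : ZMod (pJ k (sL m k l) i ^ aJ m k (sL m k l) l i)))
    ((XJ m k l).filter (fun x => c0 m k l w x ≡ T [MOD Jn m k (sL m k l) l])) ?_
  · refine key.trans ?_
    refine (Finset.prod_le_pow_card _ _ (BP k + 1000039) (fun i _ => ?_)).trans ?_
    · exact (Nat.sub_le _ _).trans (pJ_le k _ i)
    · rw [Finset.card_univ]
      exact le_of_eq rfl
  · intro x hx i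
    obtain ⟨h1, h2⟩ := Finset.mem_filter.1 hx
    rcases mem_XJ h1 i with h3 | ⟨-, g2, g3⟩
    · exact Or.inl h3
    · right
      refine ⟨g2, g3, ?_⟩
      rw [← c0_cast m k l w x i g2 (le_ef hm k l 0), ZMod.natCast_eq_natCast_iff]
      exact h2.of_dvd (pow_dvd_NN (pJ k (sL m k l)) (aJ m k (sL m k l) l) i)

/-! ## the static levels -/

theorem pz_ne_two (k t : ℕ) (f : Fin 3) : pz k t f ≠ 2 := by
  have := Pool.Agent.Helper30.T5g.million_lt_pz k t f
  intro h
  rw [h] at this
  norm_num at this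

theorem Jn_coprime {s t : ℕ} (m : Sq) (k l : ℕ) (h1 : t ≤ s) (h2 : t ≤ k + 1) (f : Fin 3) :
    (Jn m k s l).Coprime (pz k (s - t) f) := by
  unfold Jn NN
  refine Nat.Coprime.prod_left (fun i _ => Nat.Coprime.pow_left _ ?_)
  rcases i with g | i
  · exact Pool.Agent.Helper30.T5g.coprime_pr_pz g k _ f
  · refine Fin.cases ?_ (fun g => ?_) i
    · exact Pool.Agent.Helper30.T5g.coprime_buf_pz k _ f
    · refine Pool.Agent.Helper30.T5g.coprime_pz (Or.inl ?_)
      exact (Pool.Agent.Helper30.T5g.mod_ne (show s - t < s + 1 by omega) (by omega)).symm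

theorem LL_coprime {s t : ℕ} (m : Sq) (k : ℕ) (h1 : t ≤ s) (h2 : t ≤ k + 1) (f : Fin 3) :
    (LL (QQ m k s) t).Coprime (pz k (s - t) f) := by
  unfold LL
  refine Nat.Coprime.prod_left (fun i hi => ?_)
  rw [mem_range] at hi
  unfold QQ QT
  refine Nat.Coprime.prod_left (fun g _ => ?_)
  unfold QF
  refine Nat.Coprime.pow_left _ (Pool.Agent.Helper30.T5g.coprime_pz (Or.inl ?_))
  exact (Pool.Agent.Helper30.T5g.mod_ne (show s - t < s - i by omega) (by omega)).symm

/-- decoding of a static level -/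
theorem static_dec (m : Sq) {k l t : ℕ} (h1 : t ≤ sL m k l) (h2 : t ≤ k + 1) (w : Key → ℕ)
    (o : JF → ℕ) (T : ℕ) :
    ((Ys m k l t).filter (fun y => cs m k l t w o y ≡ T [MOD QQ m k (sL m k l) t])).card ≤
      BP k ^ 3 := by
  refine (Pool.Agent.Helper75.T5.lc_dec (pz_prime k _) (pz_ne_two k _) (pz_inj k _)
    (FF m k l (t + 1) * LL (QQ m k (sL m k l)) t)
    (fun f => Nat.Coprime.mul_left (Jn_coprime m k _ h1 h2 f) (LL_coprime m k h1 h2 f))
    (zf m k (sL m k l - t)) (zf m k (sL m k l - t))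
    (fun i => le_rfl) (fun i => i.val) ((Ss m k l t o).rho w) ?_ (Ys m k l t) ?_ T).trans ?_
  · intro i x y h
    have : mask (univ.filter (fun g => g < i)) x = mask (univ.filter (fun g => g < i)) y := by
      funext g
      unfold mask
      by_cases hg : g ∈ univ.filter (fun g => g < i)
      · rw [if_pos hg, if_pos hg]
        exact h g (Finset.mem_filter.1 hg).2
      · rw [if_neg hg, if_neg hg]
    unfold Side.rho Ss
    simp only
    rw [this]
  · intro y hy i
    obtain ⟨-, h3, h4⟩ := mem_T1.1 (mem_T1_of_Ys hy i)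
    exact ⟨h3, h4⟩
  · refine (Finset.prod_le_pow_card _ _ (BP k) (fun i _ => ?_)).trans ?_
    · exact (Nat.sub_le _ _).trans (Pool.Agent.Helper30.T5g.pz_le k _ i)
    · rw [Finset.card_univ, Fintype.card_fin]

theorem dvd_cs (m : Sq) (k l t : ℕ) (w : Key → ℕ) (o : JF → ℕ) (y : Fin 3 → ℕ) :
    FF m k l (t + 1) * LL (QQ m k (sL m k l)) t ∣ cs m k l t w o y :=
  dvd_fc (pz_prime k _) (pz_inj k _) (FF m k l (t + 1) * LL (QQ m k (sL m k l)) t)
    (Ss m k l t o).e
    (fun i => Lg (pz k (sL m k l - t) i) ((Ss m k l t o).e i) (y i) + (Ss m k l t o).rho w i y)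

/-! ## the fibres -/

/-- the configurations of a state -/
noncomputable def Cf (m : Sq) (k l : ℕ) (V : Finset ℕ) :
    Finset (((JF → ℕ) × (Fin (rL m k l) → Fin 3 → ℕ)) × ℕ) :=
  (XJ m k l ×ˢ Fintype.piFinset (fun t : Fin (rL m k l) => Ys m k l t)) ×ˢ V

/-- the element of a configuration -/
noncomputable def elm (m : Sq) (k l : ℕ) (w : Key → ℕ)
    (q : ((JF → ℕ) × (Fin (rL m k l) → Fin 3 → ℕ)) × ℕ) : ℕ :=
  el m k l w q.1.1 q.1.2 (Un m k l * q.2)

/-- the constant of the decoding -/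
noncomputable def DD (k : ℕ) : ℕ := (BP k + 1000039) ^ 7 * BP k ^ (3 * (k + 1))

theorem elm_fib_x (hm : m.Ok) (hr : rL m k l ≤ k + 1) (hs : rL m k l ≤ sL m k l)
    (w : Key → ℕ) (V : Finset ℕ) (a : ℕ) (x : JF → ℕ) :
    (((Cf m k l V).filter (fun q => elm m k l w q = a)).filter (fun q => q.1.1 = x)).card ≤
      BP k ^ (3 * (k + 1)) := by
  classical
  have h := Pool.Agent.Helper75.T5.dec_card {x} (c0 m k l w) (rL m k l) (Ys m k l)
    (fun t y => cs m k l t w (okey m k l t x) y) (QQ m k (sL m k l)) (fun _ => BP k ^ 3)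
    (Jn m k (sL m k l) l) 1 (Jn_pos _ _ _ _)
    (fun t _ => Pool.Agent.Helper30.T5g.QT_pos m k _)
    (fun T => (card_filter_le _ _).trans (card_singleton x).le)
    (fun t ht y _ => (Nat.mul_dvd_mul_right (Jn_dvd m k _ (le_ef hm k l (t + 1))) _).trans
      (dvd_cs m k l t w _ y))
    (fun t ht T => static_dec m (by omega) (by omega) w _ T) V a
  rw [one_mul, prod_const, card_range] at h
  refine (card_le_card ?_).trans (h.trans ?_)
  · rintro ⟨⟨x', y⟩, v⟩ hq
    simp only [mem_filter, Cf, mem_product, elm, el] at hq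
    obtain ⟨⟨⟨⟨hx, hy⟩, hv⟩, he⟩, rfl⟩ := hq
    simp only [mem_filter, mem_product, mem_singleton, true_and]
    exact ⟨⟨hy, hv⟩, he⟩
  · rw [← pow_mul]
    exact Nat.pow_le_pow_right (Pool.Agent.Helper30.T5g.BP_pos k) (Nat.mul_le_mul_left 3 hr)

theorem elm_fib (hm : m.Ok) (hr : rL m k l ≤ k + 1) (hs : rL m k l ≤ sL m k l)
    (w : Key → ℕ) (V : Finset ℕ) (a : ℕ) :
    ((Cf m k l V).filter (fun q => elm m k l w q = a)).card ≤ DD k := by
  classical
  refine (Finset.card_le_mul_card_image_of_maps_to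
    (s := (Cf m k l V).filter (fun q => elm m k l w q = a))
    (t := (XJ m k l).filter (fun x => c0 m k l w x ≡ a [MOD Jn m k (sL m k l) l]))
    (f := fun q => q.1.1) ?_ (BP k ^ (3 * (k + 1))) (fun x _ => elm_fib_x hm hr hs w V a x)).trans ?_
  · rintro ⟨⟨x, y⟩, v⟩ hq
    simp only [mem_filter, Cf, mem_product, elm, el, Fintype.mem_piFinset] at hq ⊢
    obtain ⟨⟨⟨hx, hy⟩, hv⟩, he⟩ := hq
    refine ⟨hx, ?_⟩
    have h1 : Jn m k (sL m k l) l ∣
        ∑ t : Fin (rL m k l), cs m k l t w (okey m k l t x) (y t) :=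
      Finset.dvd_sum (fun t _ => (Dvd.intro _ rfl).trans
        ((Nat.mul_dvd_mul_right (Jn_dvd m k _ (le_ef hm k l (t + 1))) _).trans
          (dvd_cs m k l t w _ (y t))))
    have h2 : Jn m k (sL m k l) l ∣ Un m k l * v := (Dvd.intro _ rfl).mul_right v
    have h3 : c0 m k l w x + (∑ t : Fin (rL m k l), cs m k l t w (okey m k l t x) (y t) +
        Un m k l * v) ≡ c0 m k l w x + 0 [MOD Jn m k (sL m k l) l] :=
      Nat.ModEq.add_left _ ((Nat.modEq_zero_iff_dvd).2 (dvd_add h1 h2))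
    rw [← he, add_assoc]
    exact h3.symm
  · rw [DD, mul_comm]
    exact Nat.mul_le_mul_right _ (joint_dec hm k l w a)

/-- **many elements** -/
theorem card_AA_ge (hm : m.Ok) (hr : rL m k l ≤ k + 1) (hs : rL m k l ≤ sL m k l)
    (w : Key → ℕ) :
    (XJ m k l).card * (∏ t ∈ range (rL m k l), (Ys m k l t).card) * (Vw m k l w).card ≤
      DD k * (AA m k l w).card := by
  classical
  have h2 := Finset.card_le_mul_card_image_of_maps_to (s := Cf m k l (Vw m k l w))
    (t := AA m k l w) (f := elm m k l w) ?_ (DD k) (fun a _ => elm_fib hm hr hs w _ a)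
  · have h3 : (Cf m k l (Vw m k l w)).card = (XJ m k l).card *
        (∏ t ∈ range (rL m k l), (Ys m k l t).card) * (Vw m k l w).card := by
      unfold Cf
      rw [Finset.card_product, Finset.card_product, Fintype.card_piFinset,
        Fin.prod_univ_eq_prod_range (fun t => (Ys m k l t).card) (rL m k l)]
    rw [← h3]
    exact h2
  · intro q hq
    unfold Cf at hq
    rw [mem_product] at hq
    unfold AA
    rw [mem_image]
    refine ⟨(q.1, Un m k l * q.2), ?_, rfl⟩
    rw [mem_product, mem_image]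
    exact ⟨hq.1, q.2, hq.2, rfl⟩

end Pool.Agent.Helper50.T5g
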