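import Pool.Agent.Helper22.NEARsg.Defs
import Pool.Agent.Helper22.NEARg.Stmts
import Pool.Agent.Helper30.T5g.BigQF
import Pool.Agent.Helper50.T5g.BadCtx
import Pool.Agent.Helper83.T5g.Leaf

/-!
# T5g (MP_12a1af), block NEARs, S2 and S3: the contexts of a bad pair across SPLIT are in a finite
set, and the number of contexts
-/

set_option autoImplicit false

namespace Pool.Agent.Helper50.T5g

open Finset
open Pool.Agent.Helper5.ET hiding Key Mk AA Rp keysOf el ext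
open Pool.Agent.Helper27.T4
open Pool.Agent.Helper27.T5b Pool.Agent.Helper27.T5g Pool.Agent.Helper37.T5g
open Pool.Agent.Helper30.T5g hiding pz_prime pz_inj
open Pool.Agent.Helper22.HW Pool.Agent.Helper22.SL Pool.Agent.Helper57.T5
open Pool.Agent.Helper39.T5 Pool.Agent.Helper50.T5
open Pool.Agent.Helper84.T5g
open Pool.Agent.Helper22.NEARg (wW)
open Pool.Agent.Helper22.NEARsg (PDs ZwO)
open Pool.Agent.Helper48.T5g (Cpl)

variable {m : Sq} {k : ℕ}

/-- elements of the inner windows with an outer key -/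
theorem ZwO_lt (hm : m.Ok) {l t : ℕ} (hl : bb 0 ≤ mL m k l) (hd : Dbl m k l)
    (h2 : 2 * (FF m k l (rL m k l) *
        LL (Pool.Agent.Helper84.T5g.QQ m k (sL m k l)) (rL m k l)) ≤ NL m k l)
    {o : JF → ℕ} {w : Key → ℕ} {u : ℕ} (hu : u ∈ ZwO m k l t o w) :
    u < 17 * NL m k l := by
  unfold ZwO at hu
  simp only [mem_image, mem_product, Fintype.mem_piFinset, Prod.exists] at hu
  obtain ⟨y, v, ⟨hy, hv⟩, rfl⟩ := hu
  obtain ⟨y', hy'⟩ : ∃ y' : ℕ → Fin 3 → ℕ,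
      y' = fun i => if h : i - t < rL m k l - t then y ⟨i - t, h⟩ else 0 := ⟨_, rfl⟩
  have hc := codes_lt hd w 0 (fun i => if i = 0 then o else 0) (fun i : Fin (rL m k l) => y' i)
  have hU := Un_mul_RT hm hl
  have h1 : ∑ i : Fin (rL m k l - t), cs m k l (t + i) w (if t + (i : ℕ) = 0 then o else 0) (y i) ≤
      ∑ i : Fin (rL m k l), cs m k l i w (if (i : ℕ) = 0 then o else 0) (y' i) := by
    rw [Fin.sum_univ_eq_sum_range (fun i => cs m k l i w (if i = 0 then o else 0) (y' i))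
      (rL m k l)]
    have e1 : ∑ i : Fin (rL m k l - t), cs m k l (t + i) w (if t + (i : ℕ) = 0 then o else 0) (y i) =
        ∑ i ∈ Ico t (rL m k l), cs m k l i w (if i = 0 then o else 0) (y' i) := by
      rw [Finset.sum_Ico_eq_sum_range, ← Fin.sum_univ_eq_sum_range
        (fun i => cs m k l (t + i) w (if t + i = 0 then o else 0) (y' (t + i)))]
      refine Finset.sum_congr rfl (fun i _ => ?_)
      have h3 : t + (i : ℕ) - t < rL m k l - t := by have := i.2; omega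
      have h4 : y' (t + i) = y i := by
        simp only [hy', dif_pos h3]
        congr 1
        exact Fin.ext (by simp)
      rw [h4]
    rw [e1]
    refine Finset.sum_le_sum_of_subset ?_
    intro i hi
    rw [mem_Ico] at hi
    rw [mem_range]
    exact hi.2
  unfold Vw at hv
  rw [mem_singleton] at hv
  rw [hv]
  omega

theorem bmS_mul_RT {t l' l : ℕ} (h : Cpl m k (sL m k l) l') (ht : t ≤ sL m k l) :
    Pool.Agent.Helper22.NEARsg.bm m k t l' l * RT m k (sL m k l - t) = NL m k l' := by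
  unfold Pool.Agent.Helper22.NEARsg.bm
  rw [mul_assoc, LL_mul_RT m k ht]
  exact Jn_mul_RT h

theorem NL_ef_eqS (hm : m.Ok) {t l' l : ℕ} (h0' : bb 0 ≤ mL m k l)
    (hll : l' ≤ l) (h : Cpl m k (sL m k l) l') :
    NL m k (ef m k l t) = NL m k l' * Pool.Agent.Helper44.T5g.DJ m k l l' t := by
  have hle : l' ≤ ef m k l t := hll.trans (lt_ez hm _ l).le
  have hFt : Jn m k (sL m k l) (ef m k l t) =
      Jn m k (sL m k l) l' * Pool.Agent.Helper44.T5g.DJ m k l l' t := by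
    unfold Jn Pool.Agent.Helper44.T5g.DJ
    rw [← Pool.Agent.Helper44.T5g.NN_add]
    congr 1
    funext i
    have h1 := Pool.Agent.Helper44.T5g.aJ_mono m k (sL m k l) i hle
    simp only [Pool.Agent.Helper44.T5g.dJ]
    omega
  have h1 := FF_mul_RT (k := k) hm h0' t
  have h2 := Jn_mul_RT h
  rw [← h1, ← h2]
  show Jn m k (sL m k l) (ef m k l t) * _ = _
  rw [hFt]
  ring

/-- the sizes of a late pair -/
theorem exists_sizesS (hm : m.Ok) (k : ℕ) (hk : 0 < k) [hQ : BigQ m k] : ∃ K0 : ℕ, ∀ t l' l, K0 ≤ l' →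
    PDs m k t l' l →
    1 ≤ wW m k l t ∧
    Pool.Agent.Helper44.T5g.DJ m k l l' t ≤ (10 ^ 6) ^ (wW m k l t / 32) ∧
    NL m k l ≤ NL m k l' * Pool.Agent.Helper44.T5g.DJ m k l l' t ∧
    Pool.Agent.Helper22.NEARsg.bm m k t l' l * RT m k (sL m k l - t) = NL m k l' ∧
    RT m k (sL m k l - t) ≤ (10 ^ 6) ^ wW m k l t ∧ 0 < Pool.Agent.Helper22.NEARsg.bm m k t l' l ∧
    (∀ w : Key → ℕ, ∀ u ∈ Pool.Agent.Helper44.T5g.Zw m k l t w, u < 17 * NL m k l) ∧
    (∀ (w : Key → ℕ) (o : JF → ℕ), ∀ u ∈ ZwO m k l' (t - 1) o w, u < 17 * NL m k l') ∧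
    bb 0 ≤ mL m k l' := by
  obtain ⟨l1', C, h1⟩ := exists_NL_le (k := k) hm
  obtain ⟨l2', h2⟩ := exists_bL hm k C
  obtain ⟨l3', h3⟩ := exists_dbl hm k
  obtain ⟨l4', h4⟩ := Pool.Agent.Helper83.T5g.near_cases (k := k) hm hk
  refine ⟨l1' + l2' + l3' + l4', fun t l' l hl' hP => ?_⟩
  have hll := hP.le
  obtain ⟨hb', hC'⟩ := h2 l' (by omega)
  obtain ⟨hb, hC⟩ := h2 l (by omega)
  obtain ⟨hd', hn'⟩ := h3 l' (by omega)
  obtain ⟨hd, hn⟩ := h3 l (by omega)
  have hs := hP.sL_eq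
  have hbe := hP.bL_eq
  have hr := rL_bounds hm k l
  have ht := hP.tr
  have hts : t ≤ sL m k l := by omega
  have hu : C ≤ sL m k l - t := by omega
  -- completeness
  have hcpl : Cpl m k (sL m k l) l' := by
    rcases h4 l l' (by omega) hll hP.near with h | ⟨s, h⟩ | ⟨s, h⟩
    · omega
    · have e1 := h.win l' le_rfl (by omega)
      have e2 := e1.cpl_succ hm h.s'.ge
      rwa [← h.s1] at e2
    · have e1 := h.s1
      have e2 := h.s'
      omega
  have hD : NL m k (ef m k l t) = NL m k l' * Pool.Agent.Helper44.T5g.DJ m k l l' t :=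
    NL_ef_eqS hm hb hll hcpl
  have hW : 1 ≤ wW m k l t := by
    have := SS_ge hm (sL m k l - t)
    unfold wW
    omega
  have hX : NL m k (ef m k l t) ≤ NL m k l' * (10 ^ 6) ^ (wW m k l t / 32) := by
    have hle : l' ≤ ef m k l t := hll.trans (lt_ez hm _ l).le
    refine h1 _ _ _ (by omega) hle ?_
    have e1 : ef m k l t = ez m (sL m k l - t) l' := hP.com.symm
    have e2 := Pool.Agent.Helper30.T5g.ez_sub_le hm (sL m k l - t) l'
    have e3 := exists_SS_ge hm C (sL m k l - t) hu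
    have e4 := SS_ge hm (sL m k l - t)
    rw [e1]
    unfold wW
    omega
  have hNpos : 0 < NL m k l' := Pool.Agent.Helper30.T5g.NL_pos m k l'
  refine ⟨hW, ?_, ?_, bmS_mul_RT hcpl hts, RT_le hm k _, ?_, ?_, ?_, hb'⟩
  · rw [hD] at hX
    exact Nat.le_of_mul_le_mul_left hX hNpos
  · rw [← hD]
    exact NL_mono m k (lt_ez hm _ l).le
  · refine Nat.pos_of_ne_zero (fun h => ?_)
    have := bmS_mul_RT hcpl hts
    rw [h, zero_mul] at this
    omega
  · exact fun w u hu => Zw_lt hm hb hd hn hu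
  · exact fun w o u hu => ZwO_lt hm hb' hd' hn' hu

/-- **S2.** -/
theorem badCtxS (hm : m.Ok) (k : ℕ) (hk : 0 < k) [hQ : BigQ m k] : Pool.Agent.Helper22.NEARsg.BadCtxS m k := by
  obtain ⟨K0, hK⟩ := exists_sizesS (m := m) hm k hk
  refine ⟨K0, ?_⟩
  rintro t l' l hl' hP w R hR ⟨⟨o, θ, γ, κ₂, N⟩, ⟨ho, hθ, hγ, hκ⟩, hlt⟩
  obtain ⟨hW, hDJ, hNl, hbm, hRT, hbpos, hz, hz', -⟩ := hK t l' l hl' hP
  refine ⟨(o, θ, γ, κ₂, N), ?_, hlt⟩
  simp only at ho hθ hγ hκ
  have hpos : 0 < Pool.Agent.Helper22.NEARsg.cNx m k t l' l w (o, θ, γ, κ₂, N) := by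
    have : (0 : ℝ) < (Pool.Agent.Helper22.NEARsg.cNx m k t l' l w (o, θ, γ, κ₂, N) : ℝ) :=
      lt_of_le_of_lt hR hlt
    exact_mod_cast this
  unfold Pool.Agent.Helper22.NEARsg.cNx Pool.Agent.Helper22.HW.cN at hpos
  rw [Finset.card_pos] at hpos
  obtain ⟨⟨i, u, u'⟩, hq⟩ := hpos
  simp only [mem_filter, mem_product, mem_range] at hq
  obtain ⟨⟨hi, hu, hu'⟩, he⟩ := hq
  have b1 := hz w u hu
  have b2 := hz' w o u' hu'
  set D := Pool.Agent.Helper44.T5g.DJ m k l l' t with hDd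
  set B := Pool.Agent.Helper22.NEARsg.bm m k t l' l with hB
  set Wt := wW m k l t with hWt
  set Q := RT m k (sL m k l - t) with hQ
  have hDpos : 0 < D := by omega
  have e2 := Nat.mod_lt (Pool.Agent.Helper22.NEARsg.clx m k t l' l (o, θ, γ, κ₂, N) i) hDpos
  have e3 : κ₂ * D ≤ 3 * D := Nat.mul_le_mul_right _ (by omega)
  have hQpos : 0 < Q := RT_pos m k _
  have c1 : u < B * (17 * (Q * D)) := by
    calc u < 17 * NL m k l := b1
      _ ≤ 17 * (NL m k l' * D) := Nat.mul_le_mul_left _ hNl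
      _ = B * (17 * (Q * D)) := by rw [← hbm]; ring
  have c2 : u' < B * (17 * (Q * D)) := by
    calc u' < 17 * NL m k l' := b2
      _ ≤ 17 * (NL m k l' * D) := Nat.mul_le_mul_left _ (Nat.le_mul_of_pos_right _ hDpos)
      _ = B * (17 * (Q * D)) := by rw [← hbm]; ring
  have c3 : Pool.Agent.Helper22.NEARsg.clx m k t l' l (o, θ, γ, κ₂, N) i % D + κ₂ * D ≤
      4 * (Q * D) := by
    have : D ≤ Q * D := Nat.le_mul_of_pos_left _ hQpos
    omega
  have c4 : B * N < B * (38 * (Q * D)) := by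
    rw [← he]
    have := Nat.mul_le_mul_left B c3
    calc u + u' + B * (Pool.Agent.Helper22.NEARsg.clx m k t l' l (o, θ, γ, κ₂, N) i % D + κ₂ * D)
        < B * (17 * (Q * D)) + B * (17 * (Q * D)) + B * (4 * (Q * D)) := by omega
      _ = _ := by ring
  have c5 : N < (10 ^ 6) ^ (3 * Wt) := by
    refine (Nat.lt_of_mul_lt_mul_left c4).trans_le ?_
    calc 38 * (Q * D) ≤ (10 ^ 6) * ((10 ^ 6) ^ Wt * (10 ^ 6) ^ (Wt / 32)) :=
          Nat.mul_le_mul (by norm_num) (Nat.mul_le_mul hRT hDJ)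
      _ = (10 ^ 6) ^ (Wt + Wt / 32 + 1) := by rw [← pow_add, ← pow_succ']
      _ ≤ _ := Nat.pow_le_pow_right (by norm_num) (by omega)
  unfold Pool.Agent.Helper22.NEARsg.Jx
  simp only [mem_product, mem_range]
  exact ⟨ho, hθ, hγ, hκ, c5⟩

/-- **S3.** the number of contexts -/
theorem cardJxS (hm : m.Ok) (k : ℕ) (hk : 0 < k)
    (hB : ∃ l0, ∀ l ≥ l0, Pool.Agent.Helper45.T5g.BufL m k l)
    [hQ : BigQ m k] : Pool.Agent.Helper22.NEARsg.CardJxS m k := by
  obtain ⟨K0, hK⟩ := exists_sizesS (m := m) hm k hk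
  obtain ⟨K1, hK1⟩ := hB
  refine ⟨K0 + K1, fun t l' l hl' hP => ?_⟩
  have hbuf := hK1 l' (by omega)
  obtain ⟨hW, hDJ, hNl, hbm, hRT, hbpos, hz, hz', hbb⟩ := hK t l' l (by omega) hP
  have hm0 := hm
  have hs := hP.sL_eq
  have hbe := hP.bL_eq
  have hr := rL_bounds hm0 k l
  have hr' := rL_bounds hm0 k l'
  have ht := hP.tr
  have ht1 := hP.t1
  set D := Pool.Agent.Helper44.T5g.DJ m k l l' t with hDd
  set Wt := wW m k l t with hWt
  have hT := Pool.Agent.Helper44.T5.card_Theta_le (pJ k (sL m k l))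
    (Pool.Agent.Helper44.T5g.dJ m k l l' t)
  have hT' : (Pool.Agent.Helper44.T5.Theta (pJ k (sL m k l))
    (Pool.Agent.Helper44.T5g.dJ m k l l' t)).card ≤ D * D := hT
  have h1 : (Pool.Agent.Helper44.T5.Theta (pJ k (sL m k l))
      (Pool.Agent.Helper44.T5g.dJ m k l l' t)).card * (D * (4 * (10 ^ 6) ^ (3 * Wt))) ≤
      (10 ^ 6) ^ (5 * Wt) := by
    calc _ ≤ (D * D) * (D * (4 * (10 ^ 6) ^ (3 * Wt))) := Nat.mul_le_mul_right _ hT'
      _ ≤ ((10 ^ 6) ^ (Wt / 32) * (10 ^ 6) ^ (Wt / 32)) * ((10 ^ 6) ^ (Wt / 32) *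
          (10 ^ 6 * (10 ^ 6) ^ (3 * Wt))) :=
          Nat.mul_le_mul (Nat.mul_le_mul hDJ hDJ)
            (Nat.mul_le_mul hDJ (Nat.mul_le_mul_right _ (by norm_num)))
      _ = (10 ^ 6) ^ (Wt / 32 + Wt / 32 + (Wt / 32 + (3 * Wt + 1))) := by
          rw [pow_add, pow_add, pow_add, pow_add _ (3 * Wt) 1, pow_one]
          ring
      _ ≤ _ := Nat.pow_le_pow_right (by norm_num) (by omega)
  have h2 : (10 ^ 6 : ℝ) ≤ Real.exp 18 := by
    have e1 := Real.exp_one_gt_d9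
    have e2 : Real.exp 18 = Real.exp 1 ^ 18 := by
      rw [← Real.exp_nat_mul]
      norm_num
    rw [e2]
    calc (10 ^ 6 : ℝ) ≤ 2.7 ^ 18 := by norm_num
      _ ≤ _ := pow_le_pow_left₀ (by norm_num) (by linarith) 18
  have h3 := Pool.Agent.Helper45.T5g.card_OK (k := k) hm hbb (by omega) (t - 1)
  have e3 : SS m (sL m k l' - (t - 1) + 1) = wW m k l (t - 1) := by
    unfold wW
    congr 1
    omega
  rw [e3] at h3
  have h4 : 90 * (Wt : ℝ) ≤ 62 * (wW m k l (t - 1) : ℝ) := by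
    have e4 : wW m k l (t - 1) = SS m (sL m k l - t + 1) := by
      unfold wW
      congr 1
      omega
    have e5 := SS_succ_ge hm0 (sL m k l - t)
    have e6 : Wt = SS m (sL m k l - t) := rfl
    have e7 : 90 * Wt ≤ 62 * wW m k l (t - 1) := by
      rw [e4, e6]
      omega
    exact_mod_cast e7
  have h5 : (((Pool.Agent.Helper44.T5.Theta (pJ k (sL m k l))
      (Pool.Agent.Helper44.T5g.dJ m k l l' t)).card * (D * (4 * (10 ^ 6) ^ (3 * Wt))) : ℕ) : ℝ) ≤
      Real.exp (90 * Wt) := by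
    calc _ ≤ (10 ^ 6 : ℝ) ^ (5 * Wt) := by exact_mod_cast h1
      _ ≤ Real.exp 18 ^ (5 * Wt) := pow_le_pow_left₀ (by norm_num) h2 _
      _ = Real.exp (90 * Wt) := by
          rw [← Real.exp_nat_mul]
          congr 1
          push_cast
          ring
  unfold Pool.Agent.Helper22.NEARsg.Jx
  rw [card_product, card_product, card_product, card_product, card_range, card_range, card_range,
    Nat.cast_mul]
  calc _ ≤ Real.exp (28 * (wW m k l (t - 1) : ℝ)) * Real.exp (90 * Wt) :=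
        mul_le_mul h3 h5 (Nat.cast_nonneg _) (Real.exp_nonneg _)
    _ ≤ Real.exp (90 * (wW m k l (t - 1) : ℝ)) := by
        rw [← Real.exp_add]
        apply Real.exp_le_exp.2
        linarith

/-- Nb2 -/
theorem badCtx_okF {m : Sq} (hF : Pool.Agent.Helper99.T5g.OkF m) :
    Pool.Agent.Helper22.NEARg.BadCtxS m m.k :=
  bad_ctx hF.toOk m.k (hQ := Pool.Agent.Helper30.T5g.bigQ_of_okF hF)

/-- Nb3 -/
theorem cardJx_okF {m : Sq} (hF : Pool.Agent.Helper99.T5g.OkF m) :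
    Pool.Agent.Helper22.NEARg.CardJxS m m.k :=
  card_Jx hF.toOk m.k (hQ := Pool.Agent.Helper30.T5g.bigQ_of_okF hF)

/-- S2 -/
theorem badCtxS_okF {m : Sq} (hF : Pool.Agent.Helper99.T5g.OkF m) :
    Pool.Agent.Helper22.NEARsg.BadCtxS m m.k :=
  badCtxS hF.toOk m.k (lt_of_lt_of_le (by norm_num) hF.toOk.k2)
    (hQ := Pool.Agent.Helper30.T5g.bigQ_of_okF hF)

/-- S3 -/
theorem cardJxS_okF {m : Sq} (hF : Pool.Agent.Helper99.T5g.OkF m) :
    Pool.Agent.Helper22.NEARsg.CardJxS m m.k :=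
  cardJxS hF.toOk m.k (lt_of_lt_of_le (by norm_num) hF.toOk.k2)
    (Pool.Agent.Helper45.T5g.bufL_of_okF hF) (hQ := Pool.Agent.Helper30.T5g.bigQ_of_okF hF)

end Pool.Agent.Helper50.T5g
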