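import Pool.Agent.Helper50.T5g.Dec
import Pool.Agent.Helper50.T5g.CntT
import Pool.Agent.Helper27.T5g.Range
import Pool.Agent.Helper84.T5g.Pair

/-!
# T5g (MP_12a1af), block COUNT: the number of elements of a state

Copy of `Helper50.T5b.Count` for a schedule `m : Sq` with one window element.
-/

set_option autoImplicit false

namespace Pool.Agent.Helper50.T5g

open Finset Pool.Agent.Helper27.T5b Pool.Agent.Helper37.T5g Pool.Agent.Helper84.T5g
open Pool.Agent.Helper27.T5g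
open Pool.Agent.Helper5.ET (bb era)
open Pool.Agent.Helper30.T5g (pz QF QT RT BP ez NL)

theorem DD_pos (k : ℕ) : 0 < DD k :=
  Nat.mul_pos (by positivity) (pow_pos (Pool.Agent.Helper30.T5g.BP_pos k) _)

theorem card_Vw (m : Sq) (k l : ℕ) (w : Key → ℕ) : (Vw m k l w).card = 1 := by
  unfold Vw
  exact card_singleton _

/-- **COUNT.** -/
theorem count_all {m : Sq} (hm : m.Ok) (k : ℕ) : ∃ (K0 : ℕ) (C : ℝ), 0 < C ∧
    ∀ l, K0 ≤ l → ∀ w : Key → ℕ,
      Real.sqrt (NL m k l) ≤ C * (l : ℝ) ^ (10 + 3 * k) * Real.sqrt (RT m k (bL m k l)) *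
        ((AA m k l w).card : ℝ) := by
  obtain ⟨t0, C1, hC1, h1⟩ := Cnt.card_conf_ge hm k
  obtain ⟨l1, hl1⟩ := exists_bL (m := m) hm k t0
  obtain ⟨l2, hl2⟩ := Pool.Agent.Helper30.T5g.exists_late (m := m) (k := k) hm 0 0
  have hD : (0 : ℝ) < (DD k : ℝ) := by exact_mod_cast DD_pos k
  refine ⟨max (max l1 l2) 1, (DD k : ℝ) * C1 ^ (10 + 3 * k), by positivity, ?_⟩
  intro l hl w
  have e1 : l1 ≤ l := (le_max_left _ _).trans ((le_max_left _ _).trans hl)
  have e2 : l2 ≤ l := (le_max_right _ _).trans ((le_max_left _ _).trans hl)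
  have e3 : 1 ≤ l := (le_max_right _ _).trans hl
  obtain ⟨a1, a2⟩ := hl1 l e1
  obtain ⟨-, -, b3, -⟩ := hl2 l e2
  have hlr : (0 : ℝ) < (l : ℝ) := by exact_mod_cast e3
  have h2 := h1 l e3 a1 b3 a2
  have hr := rL_bounds (m := m) hm k l
  have h4 := card_AA_ge (l := l) hm hr.2.2.2.1 hr.2.2.2.2.2 w
  rw [card_Vw, mul_one] at h4
  have h5 : (XJ m k l ×ˢ Fintype.piFinset (fun t : Fin (rL m k l) => Ys m k l t)).card =
      (XJ m k l).card * (∏ t ∈ range (rL m k l), (Ys m k l t).card) := by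
    rw [Finset.card_product, Fintype.card_piFinset,
      Fin.prod_univ_eq_prod_range (fun t => (Ys m k l t).card) (rL m k l)]
  rw [← h5] at h4
  set Y : ℝ := ((XJ m k l ×ˢ Fintype.piFinset
    (fun t : Fin (rL m k l) => Ys m k l t)).card : ℝ) with hY
  have h4' : Y ≤ (DD k : ℝ) * ((AA m k l w).card : ℝ) := by
    rw [hY]
    exact_mod_cast h4
  have h6 : Real.sqrt (NL m k l) = Real.sqrt (Un m k l) * Real.sqrt (RT m k (bL m k l)) := by
    rw [← Un_mul_RT hm a1, Nat.cast_mul, Real.sqrt_mul (Nat.cast_nonneg _)]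
  have hP : (0 : ℝ) < (C1 * (l : ℝ)) ^ (10 + 3 * k) := by positivity
  rw [div_le_iff₀ hP] at h2
  have hR : 0 ≤ Real.sqrt (RT m k (bL m k l) : ℝ) := Real.sqrt_nonneg _
  rw [h6]
  calc Real.sqrt (Un m k l) * Real.sqrt (RT m k (bL m k l))
      ≤ (Y * (C1 * (l : ℝ)) ^ (10 + 3 * k)) * Real.sqrt (RT m k (bL m k l)) :=
        mul_le_mul_of_nonneg_right h2 hR
    _ = Y * ((C1 * (l : ℝ)) ^ (10 + 3 * k) * Real.sqrt (RT m k (bL m k l))) := by ring
    _ ≤ ((DD k : ℝ) * ((AA m k l w).card : ℝ)) *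
          ((C1 * (l : ℝ)) ^ (10 + 3 * k) * Real.sqrt (RT m k (bL m k l))) :=
        mul_le_mul_of_nonneg_right h4' (mul_nonneg hP.le hR)
    _ = (DD k : ℝ) * C1 ^ (10 + 3 * k) * (l : ℝ) ^ (10 + 3 * k) *
          Real.sqrt (RT m k (bL m k l)) * ((AA m k l w).card : ℝ) := by rw [mul_pow]; ring

/-- **COUNT**, for the frame of `Helper84.T5g.Pair`. -/
theorem countStmt {m : Sq} (hm : m.Ok) : CountStmt m := by
  obtain ⟨K0, C, hC, h⟩ := count_all hm m.k
  exact ⟨K0, 10 + 3 * m.k, C, hC, fun l hl w _ => h l hl w⟩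

end Pool.Agent.Helper50.T5g
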